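import Pool.Agent.Work.MP_794b84_ag.Main

/-!
# Demailly's conjecture on Waldschmidt constants of points

For every field `k` of characteristic zero, every `N ≥ 1`, every nonempty finite set `X` of points
of `P^N` over `k` with defining ideal `I`, and every `m ≥ 1`, the Waldschmidt constant (the limit
of `α(I^(n)) / n`, which is shown to exist) is at least `(α(I^(m)) + N - 1) / (m + N - 1)`.

Idea of the proof.  Put `n = α(I^(m)) - m` and `d = α(I^(m)) - 1`.  By apolarity (a form `F` of
degree `d` has multiplicity at least `d - n + 1` at the point `P` iff it is orthogonal to all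
multiples of `ℓ_P ^ n`) every form of degree `d` lies in the ideal `(ℓ_P ^ n : P ∈ X)` of the dual
polynomial ring.  Such an identity lives over a finitely generated subring of `k`, so it can be
reduced modulo a maximal ideal, whose residue field has some characteristic `p > 0`.  Raising to
the power `q = p ^ e` and counting monomials, all forms of degree `q (d + N) - N` lie in
`(ℓ_P ^ (nq) : P ∈ X)` in characteristic `p`, hence also over `k` (a determinant which is nonzero
modulo the maximal ideal is nonzero).  Dualising back,
`α(I^(q(m + N - 1) - (N - 1))) ≥ q (α(I^(m)) + N - 1) - (N - 1)`, and one lets `e → ∞`.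
-/

namespace Pool.Agent.Results.MP_794b84_ag.Demailly

open Pool.Agent.Work.MP_794b84_ag Filter Topology
open scoped LinearAlgebra.Projectivization

/-- **Demailly's conjecture.** -/
theorem result (k : Type*) [Field k] [CharZero k] (N : ℕ) (hN : 1 ≤ N)
    (X : Finset (ℙ k (Fin (N + 1) → k))) (hX : X.Nonempty) :
    Tendsto (fun n : ℕ => (initialDegree (symbolicPower X n) : ℝ) / n) atTop
        (𝓝 (waldschmidt X)) ∧
      ∀ m : ℕ, 1 ≤ m →
        ((initialDegree (symbolicPower X m) : ℝ) + N - 1) / (m + N - 1) ≤ waldschmidt X :=
  ⟨tendsto_waldschmidt hN X, fun _ hm => demailly hN hX hm⟩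

end Pool.Agent.Results.MP_794b84_ag.Demailly
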